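import Mathlib

/-!
The projective plane over `ℚ`, its adelic points, and a linear automorphism.
-/

set_option autoImplicit false

noncomputable section

namespace Pool.Agent.W97.DB

/-- `P²(k)`: the nonzero vectors of `k³` up to scaling -/
def P2 (k : Type) [Field k] : Type := Projectivization k (Fin 3 → k)

/-- the point `[v]` of a nonzero vector `v` -/
def pt {k : Type} [Field k] (v : {v : Fin 3 → k // v ≠ 0}) : P2 k := Projectivization.mk k v.1 v.2

/-- `P²(k)` for a topological field `k`: the quotient topology of `k³ ∖ {0}` -/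
instance instTopP2 (k : Type) [Field k] [TopologicalSpace k] : TopologicalSpace (P2 k) :=
  TopologicalSpace.coinduced (pt (k := k)) inferInstance

/-- the inclusion `ℚ³ → k³` -/
def incl (k : Type) [Field k] [CharZero k] : (Fin 3 → ℚ) →ₛₗ[Rat.castHom k] (Fin 3 → k) where
  toFun v i := (v i : k)
  map_add' v w := by funext i; simp
  map_smul' a v := by funext i; simp

theorem incl_inj (k : Type) [Field k] [CharZero k] : Function.Injective (incl k) := by
  intro v w h
  funext i
  have := congrFun h i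
  exact Rat.cast_injective (α := k) this

/-- the inclusion `P²(ℚ) → P²(k)` -/
def loc (k : Type) [Field k] [CharZero k] : P2 ℚ → P2 k := Projectivization.map (incl k) (incl_inj k)

instance instFactPrimes (p : Nat.Primes) : Fact (p : ℕ).Prime := ⟨p.2⟩

/-- the adelic points `P²(𝔸_ℚ) = P²(ℝ) × ∏_p P²(ℚ_p)` with the product topology -/
def Adelic : Type := P2 ℝ × ((p : Nat.Primes) → P2 ℚ_[(p : ℕ)])

instance instTopAdelic : TopologicalSpace Adelic :=
  (inferInstance : TopologicalSpace (P2 ℝ × ((p : Nat.Primes) → P2 ℚ_[(p : ℕ)])))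

/-- the diagonal embedding `P²(ℚ) → P²(𝔸_ℚ)` -/
def diag (x : P2 ℚ) : Adelic := (loc ℝ x, fun p => loc ℚ_[(p : ℕ)] x)

/-- the adelic closure of a set of rational points -/
def adelicClosure (S : Set (P2 ℚ)) : Set Adelic := closure (diag '' S)

/-- the linear map `(x, y, z) ↦ (x + z, x + y, z)` -/
def lin : (Fin 3 → ℚ) →ₗ[ℚ] (Fin 3 → ℚ) where
  toFun v := ![v 0 + v 2, v 0 + v 1, v 2]
  map_add' v w := by
    funext i
    fin_cases i <;> simp <;> ring
  map_smul' a v := by
    funext i
    fin_cases i <;> simp <;> ring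

theorem lin_inj : Function.Injective lin := by
  intro v w h
  have h0 : v 0 + v 2 = w 0 + w 2 := congrFun h 0
  have h1 : v 0 + v 1 = w 0 + w 1 := congrFun h 1
  have h2 : v 2 = w 2 := congrFun h 2
  funext i
  fin_cases i
  · simp only [Fin.zero_eta]; linarith
  · simp only [Fin.mk_one]; linarith
  · exact h2

/-- the automorphism `f : (x : y : z) ↦ (x + z : x + y : z)` of `P²` -/
def f : P2 ℚ → P2 ℚ := Projectivization.map lin lin_inj

/-- the point `P = (0 : 0 : 1)` -/
def P : P2 ℚ := pt ⟨![0, 0, 1], fun h => one_ne_zero (congrFun h 2)⟩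

/-- the forward orbit of `P` -/
def orbit : Set (P2 ℚ) := {x | ∃ n : ℕ, f^[n] P = x}

/-- the `k`-points of the line `Y : x + z = 0` -/
def Y (k : Type) [Field k] : Set (P2 k) := {x | ∃ v : {v : Fin 3 → k // v ≠ 0}, pt v = x ∧ v.1 0 + v.1 2 = 0}

/-- the adelic points of the line `Y` -/
def YA : Set Adelic := {x | x.1 ∈ Y ℝ ∧ ∀ p : Nat.Primes, x.2 p ∈ Y ℚ_[(p : ℕ)]}

end Pool.Agent.W97.DB
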